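import Pool.Agent.H97.ZW.SigmaW
import Pool.Agent.H97.AL.Main

/-!
# Levels in small discs
-/

set_option autoImplicit false

open Filter Topology Set MvPolynomial

namespace Pool.Agent.H97.ZW

open Pool.Agent.H97.AL
open Pool.Agent.Q192.QD (AlgLe SInt nfd MgF)

/-- the number of exceptional tuples of levels in small discs -/
theorem countW {Adm : ℂ → Set ℂ → Prop} {K : Set ℂ} (hK : Cov Adm K) (N m d g : ℕ) (A ρ : ℝ) (hρ : 0 < ρ) :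
    ∃ B C T₀ : ℝ, 0 ≤ C ∧ ∀ (ω : Fin g → ℂ) (T : ℝ), T₀ ≤ T → ∀ X : Fin N → Finset ℂ,
      (∀ j, ∀ x ∈ X j, x ∈ K ∧ AlgLe m T x) → (∀ j, ∀ x ∈ X j, ∀ y ∈ X j, ‖x - y‖ ≤ T ^ (-ρ)) →
      {a : Fin N → ℂ | (∀ j, a j ∈ X j) ∧ RelA Adm ω d A B T a}.Finite ∧
      ({a : Fin N → ℂ | (∀ j, a j ∈ X j) ∧ RelA Adm ω d A B T a}.ncard : ℝ) ≤ C * MgF X := by
  classical
  obtain ⟨S, hSf, hS⟩ := hK
  have hfin : Fintype S := hSf.fintype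
  have key := fun p : Fin N → S => fields_sigmaW (η := Fin g) m N d (κ := fun j => (p j).1.κ)
    (U := fun j => (p j).1.U) (fun j => (p j).1.hU) (fun j => (p j).1.hc) (y := fun j => (p j).1.y)
    (fun j => (p j).1.hy) (fun j => (p j).1.hl) (K := fun j => (p j).1.C) (fun j => (p j).1.hC)
    (fun j => (p j).1.hCU) A ρ hρ
  choose B C T₀ H using key
  obtain ⟨B', hB'⟩ := (Set.finite_range B).bddAbove
  obtain ⟨T', hT'⟩ := (Set.finite_range T₀).bddAbove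
  refine ⟨B', ∑ p, |C p|, max T' 1, Finset.sum_nonneg fun p _ => abs_nonneg _, fun ω T hT X hX hCl => ?_⟩
  have hT1 : 1 ≤ T := (le_max_right _ _).trans hT
  have hT0 : 0 ≤ T := by linarith
  set E : Set (Fin N → ℂ) := {a : Fin N → ℂ | (∀ j, a j ∈ X j) ∧ RelA Adm ω d A B' T a} with hE
  set X' : (Fin N → S) → Fin N → Finset ℂ := fun p j => (X j).filter fun x => x ∈ (p j).1.C with hX'
  set E' : (Fin N → S) → Set (Fin N → ℂ) := fun p =>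
    {a | (∀ j, a j ∈ X' p j) ∧ RelP (fun j => (p j).1) ω d A (B p) T a} with hE'
  have h1 : ∀ p, (E' p).Finite ∧ ((E' p).ncard : ℝ) ≤ C p * MgF (X' p) := by
    intro p
    refine H p ω T ((hT' ⟨p, rfl⟩).trans ((le_max_left _ _).trans hT)) (X' p) (fun j x hx => ?_)
      (fun j x hx y hy => hCl j x (Finset.mem_filter.1 hx).1 y (Finset.mem_filter.1 hy).1) (E' p) (fun a ha => ha)
    rw [hX', Finset.mem_filter] at hx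
    exact ⟨hx.2, (hX j x hx.1).2⟩
  have h2 : E ⊆ ⋃ p, E' p := by
    rintro a ⟨ha, hrel⟩
    obtain ⟨p, hp, hP⟩ := relP_of_relA hS ω d A B' T hT0 a (fun j => (hX j _ (ha j)).1) hrel
    refine Set.mem_iUnion.2 ⟨fun j => ⟨p j, (hp j).1⟩, fun j => ?_, ?_⟩
    · rw [hX', Finset.mem_filter]
      exact ⟨ha j, (hp j).2⟩
    · exact relP_mono _ ω d hT1 (hB' ⟨_, rfl⟩) a hP
  have h3 : (⋃ p, E' p).Finite := Set.finite_iUnion fun p => (h1 p).1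
  refine ⟨h3.subset h2, ?_⟩
  calc (E.ncard : ℝ) ≤ ((⋃ p, E' p).ncard : ℝ) := by exact_mod_cast Set.ncard_le_ncard h2 h3
    _ ≤ ∑ p, ((E' p).ncard : ℝ) := by
        have h4 : (⋃ p, E' p).ncard ≤ ∑ p, (E' p).ncard := by
          have h5 := Finset.set_ncard_biUnion_le Finset.univ E'
          simpa using h5
        exact_mod_cast h4
    _ ≤ ∑ p, |C p| * MgF X := Finset.sum_le_sum fun p _ => by
        refine (h1 p).2.trans ?_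
        exact mul_le_mul (le_abs_self _) (MgF_mono fun j => Finset.filter_subset _ _) (MgF_nonneg _) (abs_nonneg _)
    _ = (∑ p, |C p|) * MgF X := by rw [Finset.sum_mul]

/-- two kinds of relations -/
theorem countW_two {P₁ P₂ : ℝ → ℝ → ℝ → ∀ {N g : ℕ}, (Fin g → ℂ) → ℕ → (Fin N → ℂ) → Prop}
    {Adm₁ Adm₂ : ℂ → Set ℂ → Prop} {K : Set ℂ} (hK₁ : Cov Adm₁ K) (hK₂ : Cov Adm₂ K)
    (hP₁ : ∀ {N g : ℕ} (ω : Fin g → ℂ) (d : ℕ) (A B T : ℝ) (a : Fin N → ℂ), P₁ A B T ω d a → RelA Adm₁ ω d A B T a)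
    (hP₂ : ∀ {N g : ℕ} (ω : Fin g → ℂ) (d : ℕ) (A B T : ℝ) (a : Fin N → ℂ), P₂ A B T ω d a → RelA Adm₂ ω d A B T a)
    (N m d g : ℕ) (A ρ : ℝ) (hρ : 0 < ρ) :
    ∃ B C T₀ : ℝ, ∀ (ω : Fin g → ℂ) (T : ℝ), T₀ ≤ T → ∀ X : Fin N → Finset ℂ,
      (∀ j, ∀ x ∈ X j, x ∈ K ∧ AlgLe m T x) → (∀ j, ∀ x ∈ X j, ∀ y ∈ X j, ‖x - y‖ ≤ T ^ (-ρ)) →
      {a : Fin N → ℂ | (∀ j, a j ∈ X j) ∧ (P₁ A B T ω d a ∨ P₂ A B T ω d a)}.Finite ∧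
      ({a : Fin N → ℂ | (∀ j, a j ∈ X j) ∧ (P₁ A B T ω d a ∨ P₂ A B T ω d a)}.ncard : ℝ) ≤ C * MgF X := by
  obtain ⟨B₁, C₁, T₁, hC₁, H₁⟩ := countW hK₁ N m d g A ρ hρ
  obtain ⟨B₂, C₂, T₂, hC₂, H₂⟩ := countW hK₂ N m d g A ρ hρ
  refine ⟨max B₁ B₂, C₁ + C₂, max (max T₁ T₂) 1, fun ω T hT X hX hCl => ?_⟩
  have hT1 : T₁ ≤ T := (le_max_left _ _).trans ((le_max_left _ _).trans hT)
  have hT2 : T₂ ≤ T := (le_max_right _ _).trans ((le_max_left _ _).trans hT)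
  have hT3 : 1 ≤ T := (le_max_right _ _).trans hT
  obtain ⟨f1, n1⟩ := H₁ ω T hT1 X hX hCl
  obtain ⟨f2, n2⟩ := H₂ ω T hT2 X hX hCl
  have hsub : {a : Fin N → ℂ | (∀ j, a j ∈ X j) ∧ (P₁ A (max B₁ B₂) T ω d a ∨ P₂ A (max B₁ B₂) T ω d a)} ⊆
      {a : Fin N → ℂ | (∀ j, a j ∈ X j) ∧ RelA Adm₁ ω d A B₁ T a} ∪
      {a : Fin N → ℂ | (∀ j, a j ∈ X j) ∧ RelA Adm₂ ω d A B₂ T a} := by
    rintro a ⟨ha, h | h⟩
    · exact Or.inl ⟨ha, relA_mono hT3 (le_max_left _ _) (hP₁ _ _ _ _ _ _ h)⟩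
    · exact Or.inr ⟨ha, relA_mono hT3 (le_max_right _ _) (hP₂ _ _ _ _ _ _ h)⟩
  refine ⟨(f1.union f2).subset hsub, ?_⟩
  have h1 := Set.ncard_le_ncard hsub (f1.union f2)
  have h2 := h1.trans (Set.ncard_union_le _ _)
  have h3 : ({a : Fin N → ℂ | (∀ j, a j ∈ X j) ∧
      (P₁ A (max B₁ B₂) T ω d a ∨ P₂ A (max B₁ B₂) T ω d a)}.ncard : ℝ) ≤
      ({a : Fin N → ℂ | (∀ j, a j ∈ X j) ∧ RelA Adm₁ ω d A B₁ T a}.ncard : ℝ) +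
      ({a : Fin N → ℂ | (∀ j, a j ∈ X j) ∧ RelA Adm₂ ω d A B₂ T a}.ncard : ℝ) := by exact_mod_cast h2
  refine h3.trans ((add_le_add n1 n2).trans (le_of_eq ?_))
  ring

/-- the counting theorem for `f (1 - s) = f s` -/
theorem countW_levels {f : ℂ → ℂ} (hf : Differentiable ℂ f) (hs : ∀ s, f (1 - s) = f s)
    (hc : ∀ s, f ((starRingEnd ℂ) s) = (starRingEnd ℂ) (f s)) (hG : Gen f) (R : ℝ) {K : Set ℂ} (hK : IsCompact K)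
    (hreg : ∀ a ∈ K, Reg f R a) (N m d g : ℕ) (A ρ : ℝ) (hρ : 0 < ρ) :
    ∃ B C T₀ : ℝ, ∀ (ω : Fin g → ℂ) (T : ℝ), T₀ ≤ T → ∀ X : Fin N → Finset ℂ,
      (∀ j, ∀ x ∈ X j, x ∈ K ∧ AlgLe m T x) → (∀ j, ∀ x ∈ X j, ∀ y ∈ X j, ‖x - y‖ ≤ T ^ (-ρ)) →
      {a : Fin N → ℂ | (∀ j, a j ∈ X j) ∧ (ExS f R ω d A B T a ∨ ExO f R ω d A B T a)}.Finite ∧
      ({a : Fin N → ℂ | (∀ j, a j ∈ X j) ∧ (ExS f R ω d A B T a ∨ ExO f R ω d A B T a)}.ncard : ℝ) ≤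
        C * MgF X :=
  countW_two (P₁ := fun A B T _ _ ω d a => ExS f R ω d A B T a) (P₂ := fun A B T _ _ ω d a => ExO f R ω d A B T a)
    (cov_sol hf hs hG R hK hreg) (cov_ord hf hc hG R hK hreg) (fun _ _ _ _ _ _ h => h.rel)
    (fun _ _ _ _ _ _ h => h.rel) N m d g A ρ hρ

end Pool.Agent.H97.ZW
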