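import Pool.Agent.H97.ZW.OneW
import Pool.Graph.R_pool_sql_team_seeded_2aa45f1a.Q192.QD.Sigma

/-!
# Several variables, all points in small discs: a bounded number of exceptional points per hyperplane
-/

set_option autoImplicit false

open Filter Topology Finset NumberField Module

namespace Pool.Agent.H97.ZW

open Pool.Agent.Y124
open Pool.Agent.Y120 (NormRing Pt RK RK_norm gK HtLe Pt_of_HtLe house_le house_ge)
open Pool.Agent.Q192.QD

/-- one variable: at most `C` exceptional points among points which are close to each other in the sense of `Cl` -/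
def OneW (g : ℕ) {α κ : Type} [Fintype κ] [DecidableEq κ] (Cl : ℝ → α → α → Prop)
    (Dom : Subring (Fin (g + 1) → ℂ) → ℝ → Set α) (v : α → κ → ℂ) : Prop :=
  ∀ (h : Type) [Fintype h] [DecidableEq h] (d : ℕ) (A : ℝ), ∃ B C T2 : ℝ, 0 < C ∧ 2 ≤ T2 ∧
    ∀ T : ℝ, T2 ≤ T → ∀ R : Subring (Fin (g + 1) → ℂ), NormRing R → ∀ ξ : h → ℂ, ∀ Y : Finset α,
      (∀ x ∈ Y, x ∈ Dom R T ∧ RelR R ξ (fun l : κ → Fin (d + 1) => ∏ i, v x i ^ (l i : ℕ)) (T ^ A) (T ^ (-B))) →
      (∀ x ∈ Y, ∀ y ∈ Y, Cl T x y) → (Y.card : ℝ) ≤ C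

theorem multiW (g : ℕ) {α κ : Type} [Fintype κ] [DecidableEq κ] (Cl : ℝ → α → α → Prop) (n : ℕ) :
    ∀ (Dom : Fin n → Subring (Fin (g + 1) → ℂ) → ℝ → Set α) (v : Fin n → α → κ → ℂ)
      (_ : ∀ j, OneW g Cl (Dom j) (v j))
      (h : Type) [Fintype h] [DecidableEq h] (d : ℕ) (A : ℝ),
    ∃ B C T2 : ℝ, 0 ≤ B ∧ 0 < C ∧ 2 ≤ T2 ∧ ∀ T : ℝ, T2 ≤ T → ∀ R : Subring (Fin (g + 1) → ℂ), NormRing R →
      ∀ ξ : h → ℂ, ∀ X : Fin n → Finset α, (∀ j, ∀ x ∈ X j, x ∈ Dom j R T) →
        (∀ j, ∀ x ∈ X j, ∀ y ∈ X j, Cl T x y) → ∀ Y ⊆ Fintype.piFinset X,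
        (∀ x ∈ Y, RelR R ξ (fun e : Fin n → κ → Fin (d + 1) => mgR v x e) (T ^ A) (T ^ (-B))) →
        (Y.card : ℝ) ≤ C * MgR X := by
  classical
  induction n with
  | zero =>
    intro Dom v _ h _ _ d A
    refine ⟨1, 1, 2, zero_le_one, one_pos, le_rfl, fun T hT R hR ξ X hX hCl Y hY hrel => ?_⟩
    have hemp : Y = ∅ := by
      rw [Finset.eq_empty_iff_forall_notMem]
      intro x hx
      obtain ⟨c, hcR, hc, l₀, hl₀, hs⟩ := hrel x hx
      have h1 : ∑ l : Fin 0 → κ → Fin (d + 1), (∑ s, ξ s * c l s 0) * mgR v x l = ∑ s, ξ s * c l₀ s 0 := by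
        rw [Fintype.sum_subsingleton _ l₀]
        simp [mgR]
      rw [h1] at hs
      have h2 : 0 < ‖∑ s, ξ s * c l₀ s 0‖ := norm_pos_iff.2 hl₀
      have h3 : T ^ (-(1 : ℝ)) ≤ 1 / 2 := by
        rw [Real.rpow_neg (by linarith), Real.rpow_one, one_div]
        exact inv_anti₀ (by norm_num) hT
      nlinarith
    rw [hemp]
    simp [MgR]
  | succ n ih =>
    intro Dom v hv h _ _ d A
    obtain ⟨Bn, Cn, Tn, hBn, hCn, hTn, hn⟩ := ih (fun j => Dom j.succ) (fun j => v j.succ) (fun j => hv j.succ) h d A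
    obtain ⟨B1, C1, T1, hC1, hT1, h1⟩ := hv 0 ((Fin n → κ → Fin (d + 1)) × h) d A
    refine ⟨max B1 0 + Bn, max Cn C1, max Tn T1, by positivity, lt_max_of_lt_left hCn, le_max_of_le_left hTn, ?_⟩
    intro T hT R hR ξ X hX hCl Y hY hrel
    have hTTn : Tn ≤ T := (le_max_left _ _).trans hT
    have hTT1 : T1 ≤ T := (le_max_right _ _).trans hT
    have hT2 : 2 ≤ T := hTn.trans hTTn
    have hTp : 0 < T := by linarith
    have hT1' : 1 ≤ T := by linarith
    -- the exceptional tails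
    set Z : Finset (Fin n → α) := (Fintype.piFinset fun j : Fin n => X j.succ).filter fun x' =>
      RelR R ξ (fun e : Fin n → κ → Fin (d + 1) => mgR (fun j => v j.succ) x' e) (T ^ A) (T ^ (-Bn)) with hZ
    have hZc := hn T hTTn R hR ξ (fun j => X j.succ) (fun j => hX j.succ) (fun j => hCl j.succ) Z (Finset.filter_subset _ _)
      (fun x hx => (Finset.mem_filter.1 hx).2)
    have hYt : ∀ x ∈ Y, (fun j : Fin n => x j.succ) ∈ Fintype.piFinset fun j : Fin n => X j.succ := by
      intro x hx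
      have := Fintype.mem_piFinset.1 (hY hx)
      exact Fintype.mem_piFinset.2 fun j => this j.succ
    -- the fibres over good tails
    have hfib : ∀ x' : Fin n → α, x' ∉ Z →
        (((Y.filter fun x => (fun j : Fin n => x j.succ) = x').card : ℕ) : ℝ) ≤ C1 := by
      intro x' hx'
      set Yx := (Y.filter fun x => (fun j : Fin n => x j.succ) = x') with hYx
      have hinj : (Yx.image fun x => x 0).card = Yx.card := by
        refine Finset.card_image_of_injOn ?_
        intro x hx y hy hxy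
        rw [Finset.mem_coe, Finset.mem_filter] at hx hy
        funext j
        refine Fin.cases hxy (fun i => ?_) j
        exact congrFun (hx.2.trans hy.2.symm) i
      rw [← hinj]
      refine h1 T hTT1 R hR (fun p => ξ p.2 * mgR (fun j => v j.succ) x' p.1) _ ?_ ?_
      swap
      · intro y hy z hz
        obtain ⟨x, hx, rfl⟩ := Finset.mem_image.1 hy
        obtain ⟨w, hw, rfl⟩ := Finset.mem_image.1 hz
        exact hCl 0 _ (Fintype.mem_piFinset.1 (hY (Finset.mem_filter.1 hx).1) 0) _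
          (Fintype.mem_piFinset.1 (hY (Finset.mem_filter.1 hw).1) 0)
      intro y hy
      obtain ⟨x, hx, rfl⟩ := Finset.mem_image.1 hy
      refine ⟨hX 0 _ (Fintype.mem_piFinset.1 (hY (Finset.mem_filter.1 hx).1) 0), ?_⟩
      obtain ⟨hxY, hxx'⟩ := Finset.mem_filter.1 hx
      obtain ⟨c, hcR, hc, l₀, hl₀, hs⟩ := hrel x hxY
      have hx'pi : x' ∈ Fintype.piFinset fun j : Fin n => X j.succ := by
        rw [← hxx']
        exact hYt x hxY
      have hnot : ¬ RelR R ξ (fun e : Fin n → κ → Fin (d + 1) => mgR (fun j => v j.succ) x' e) (T ^ A) (T ^ (-Bn)) :=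
        fun hcon => hx' (Finset.mem_filter.2 ⟨hx'pi, hcon⟩)
      -- the combination for the exponent of the first variable
      set W : (κ → Fin (d + 1)) → ℂ := fun l =>
        ∑ p : (Fin n → κ → Fin (d + 1)) × h, (ξ p.2 * mgR (fun j => v j.succ) x' p.1) *
          c (Fin.cons l p.1) p.2 0 with hW
      have hWe : ∀ l, W l = ∑ e : Fin n → κ → Fin (d + 1), (∑ s, ξ s * c (Fin.cons l e) s 0) *
          mgR (fun j => v j.succ) x' e := by
        intro l
        simp only [hW]
        rw [Fintype.sum_prod_type]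
        refine Finset.sum_congr rfl fun e _ => ?_
        rw [Finset.sum_mul]
        refine Finset.sum_congr rfl fun s _ => ?_
        ring
      have htot : ∑ e : Fin (n + 1) → κ → Fin (d + 1), (∑ s, ξ s * c e s 0) * mgR v x e =
          ∑ l : κ → Fin (d + 1), W l * ∏ i, v 0 (x 0) i ^ (l i : ℕ) := by
        rw [← (Fin.consEquiv (fun _ : Fin (n + 1) => κ → Fin (d + 1))).sum_comp, Fintype.sum_prod_type]
        refine Finset.sum_congr rfl fun l _ => ?_
        rw [hWe, Finset.sum_mul]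
        refine Finset.sum_congr rfl fun e _ => ?_
        have h2 : mgR v x ((Fin.consEquiv (fun _ : Fin (n + 1) => κ → Fin (d + 1))) (l, e)) =
            (∏ i, v 0 (x 0) i ^ (l i : ℕ)) * mgR (fun j => v j.succ) x' e := by
          rw [mgR, Fin.prod_univ_succ, mgR, ← hxx']
          rfl
        rw [h2]
        have h3 : ((Fin.consEquiv (fun _ : Fin (n + 1) => κ → Fin (d + 1))) (l, e)) =
          (Fin.cons l e : Fin (n + 1) → κ → Fin (d + 1)) := rfl
        rw [h3]
        ring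
      have hl₀c : (Fin.cons (l₀ 0) (fun j : Fin n => l₀ j.succ) : Fin (n + 1) → κ → Fin (d + 1)) = l₀ :=
        Fin.cons_self_tail l₀
      have hbig : T ^ (-Bn) * ‖∑ s, ξ s * c l₀ s 0‖ < ‖W (l₀ 0)‖ := by
        by_contra hcon
        rw [not_lt] at hcon
        apply hnot
        refine ⟨fun e s => c (Fin.cons (l₀ 0) e) s, fun e s => hcR _ _, fun e s => hc _ _, fun j => l₀ j.succ, ?_, ?_⟩
        · change ∑ s, ξ s * c (Fin.cons (l₀ 0) fun j => l₀ j.succ) s 0 ≠ 0
          rw [hl₀c]; exact hl₀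
        · change ‖∑ e, (∑ s, ξ s * c (Fin.cons (l₀ 0) e) s 0) * mgR (fun j => v j.succ) x' e‖ ≤
            T ^ (-Bn) * ‖∑ s, ξ s * c (Fin.cons (l₀ 0) fun j => l₀ j.succ) s 0‖
          rw [hl₀c, ← hWe]; exact hcon
      have hw0 : 0 < ‖∑ s, ξ s * c l₀ s 0‖ := norm_pos_iff.2 hl₀
      refine ⟨fun l p => c (Fin.cons l p.1) p.2, fun l p => hcR _ _, fun l p => hc _ _, l₀ 0, ?_, ?_⟩
      · intro h0
        have h2 : W (l₀ 0) = 0 := h0
        rw [h2, norm_zero] at hbig
        have : 0 < T ^ (-Bn) := Real.rpow_pos_of_pos hTp _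
        have := mul_pos this hw0
        linarith
      · change ‖∑ l, W l * ∏ i, v 0 (x 0) i ^ (l i : ℕ)‖ ≤ T ^ (-B1) * ‖W (l₀ 0)‖
        rw [← htot]
        refine hs.trans ?_
        have h2 : T ^ (-(max B1 0 + Bn)) = T ^ (-(max B1 0)) * T ^ (-Bn) := by
          rw [← Real.rpow_add hTp]
          congr 1
          ring
        rw [h2, mul_assoc]
        have h3 : T ^ (-(max B1 0)) ≤ T ^ (-B1) :=
          Real.rpow_le_rpow_of_exponent_le hT1' (neg_le_neg (le_max_left _ _))
        exact mul_le_mul h3 hbig.le (by positivity) (Real.rpow_pos_of_pos hTp _).le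
    -- counting
    have hsplit := Finset.card_filter_add_card_filter_not (s := Y)
      (p := fun x : Fin (n + 1) → α => (fun j : Fin n => x j.succ) ∈ Z)
    have hp1 : ((Y.filter fun x : Fin (n + 1) → α => (fun j : Fin n => x j.succ) ∈ Z).card : ℝ) ≤
        (X 0).card * Z.card := by
      have hle : (Y.filter fun x : Fin (n + 1) → α => (fun j : Fin n => x j.succ) ∈ Z).card ≤
          (X 0 ×ˢ Z).card := by
        refine Finset.card_le_card_of_injOn (fun t => (t 0, fun j : Fin n => t j.succ)) ?_ ?_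
        · intro t ht
          rw [Finset.mem_coe, Finset.mem_filter] at ht
          rw [Finset.mem_coe, Finset.mem_product]
          exact ⟨Fintype.mem_piFinset.1 (hY ht.1) 0, ht.2⟩
        · intro t _ t' _ heq
          simp only [Prod.mk.injEq] at heq
          funext j
          refine Fin.cases heq.1 (fun i => congrFun heq.2 i) j
      rw [Finset.card_product] at hle
      exact_mod_cast hle
    have hp2 : ((Y.filter fun x : Fin (n + 1) → α => ¬ (fun j : Fin n => x j.succ) ∈ Z).card : ℝ) ≤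
        C1 * ∏ i : Fin n, ((X i.succ).card : ℝ) := by
      have h2 := Finset.card_eq_sum_card_fiberwise (s := Y.filter fun x : Fin (n + 1) → α =>
          ¬ (fun j : Fin n => x j.succ) ∈ Z) (t := Fintype.piFinset fun j : Fin n => X j.succ)
        (f := fun x => fun j : Fin n => x j.succ) (by
          intro x hx
          rw [Finset.mem_coe, Finset.mem_filter] at hx
          exact hYt x hx.1)
      rw [h2]
      push_cast
      calc ∑ x' ∈ Fintype.piFinset fun j : Fin n => X j.succ,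
            ((((Y.filter fun x : Fin (n + 1) → α => ¬ (fun j : Fin n => x j.succ) ∈ Z).filter
              fun x => (fun j : Fin n => x j.succ) = x').card : ℕ) : ℝ)
          ≤ ∑ x' ∈ Fintype.piFinset fun j : Fin n => X j.succ, C1 := by
            refine Finset.sum_le_sum fun x' _ => ?_
            by_cases hx' : x' ∈ Z
            · have h3 : ((Y.filter fun x : Fin (n + 1) → α => ¬ (fun j : Fin n => x j.succ) ∈ Z).filter
                  fun x => (fun j : Fin n => x j.succ) = x') = ∅ := by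
                rw [Finset.eq_empty_iff_forall_notMem]
                intro x hx
                rw [Finset.mem_filter, Finset.mem_filter] at hx
                exact hx.1.2 (hx.2 ▸ hx')
              rw [h3, Finset.card_empty, Nat.cast_zero]
              positivity
            · refine le_trans ?_ (hfib x' hx')
              exact_mod_cast Finset.card_le_card (Finset.filter_subset_filter _ (Finset.filter_subset _ _))
        _ = C1 * ∏ i : Fin n, ((X i.succ).card : ℝ) := by
            rw [Finset.sum_const, Fintype.card_piFinset, nsmul_eq_mul]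
            push_cast
            ring
    have hP0 : 0 ≤ ∏ i : Fin n, ((X i.succ).card : ℝ) := Finset.prod_nonneg fun _ _ => Nat.cast_nonneg _
    have hM0 : 0 ≤ MgR (fun i => X i.succ) :=
      Finset.sum_nonneg fun j _ => Finset.prod_nonneg fun i _ => by split_ifs <;> positivity
    have hCC : 0 < max Cn C1 := lt_max_of_lt_left hCn
    rw [MgR_succ]
    have hYc : (Y.card : ℝ) = ((Y.filter fun x : Fin (n + 1) → α => (fun j : Fin n => x j.succ) ∈ Z).card : ℝ) +
        ((Y.filter fun x : Fin (n + 1) → α => ¬ (fun j : Fin n => x j.succ) ∈ Z).card : ℝ) := by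
      exact_mod_cast hsplit.symm
    rw [hYc]
    calc ((Y.filter fun x : Fin (n + 1) → α => (fun j : Fin n => x j.succ) ∈ Z).card : ℝ) +
        ((Y.filter fun x : Fin (n + 1) → α => ¬ (fun j : Fin n => x j.succ) ∈ Z).card : ℝ)
        ≤ (X 0).card * (Cn * MgR (fun i => X i.succ)) +
          C1 * ∏ i : Fin n, ((X i.succ).card : ℝ) :=
          add_le_add (hp1.trans (mul_le_mul_of_nonneg_left hZc (Nat.cast_nonneg _))) hp2
      _ ≤ (X 0).card * (max Cn C1 * MgR (fun i => X i.succ)) +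
          max Cn C1 * ∏ i : Fin n, ((X i.succ).card : ℝ) := by
          refine add_le_add (mul_le_mul_of_nonneg_left ?_ (Nat.cast_nonneg _)) ?_
          · exact mul_le_mul_of_nonneg_right (le_max_left _ _) hM0
          · exact mul_le_mul_of_nonneg_right (le_max_right _ _) hP0
      _ = max Cn C1 * (∏ i : Fin n, ((X i.succ).card : ℝ) + (X 0).card * MgR (fun i => X i.succ)) := by
          ring

/-- tuples of points, in arbitrary finite sets of points of the number field -/
theorem nfXW (Cl : ℝ → ℂ → ℂ → Prop) (m n : ℕ) {κ : Type} [Fintype κ] [DecidableEq κ] (v : Fin n → ℂ → κ → ℂ) (L : Fin n → Set ℂ)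
    (hv : ∀ g j, OneW g Cl (fun R T => {t | t ∈ L j ∧ Pt R T t}) (v j))
    (h : Type) [Fintype h] [DecidableEq h] (d : ℕ) (A : ℝ) :
    ∃ B C T₀ : ℝ, 0 ≤ B ∧ 0 ≤ C ∧ 2 ≤ T₀ ∧ ∀ (K : Type) [Field K] [NumberField K], finrank ℚ K ≤ m →
      ∀ (io : K →+* ℂ) (ξ : h → ℂ) (T : ℝ), T₀ ≤ T → ∀ X : Fin n → Finset ℂ,
      (∀ j, ∀ x ∈ X j, x ∈ L j ∧ ∃ t : K, io t = x ∧ HtLe K T t) →
      (∀ j, ∀ x ∈ X j, ∀ y ∈ X j, Cl T x y) → ∀ Y ⊆ Fintype.piFinset X,
      (∀ x ∈ Y, RelK K io ξ (fun e : Fin n → κ → Fin (d + 1) => mgR v x e) (T ^ A) (T ^ (-B))) →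
      (Y.card : ℝ) ≤ C * MgR X := by
  classical
  have hg := fun g : ℕ => multiW g Cl n (fun j R T => {t | t ∈ L j ∧ Pt R T t}) v (fun j => hv g j) h d A
  choose B C T2 hB hC hT2 H using hg
  refine ⟨∑ g ∈ range m, B g, ∑ g ∈ range m, C g, 2 + ∑ g ∈ range m, T2 g, ?_, ?_, ?_, ?_⟩
  · exact Finset.sum_nonneg fun g _ => hB g
  · exact Finset.sum_nonneg fun g _ => (hC g).le
  · have : 0 ≤ ∑ g ∈ range m, T2 g := Finset.sum_nonneg fun g _ => by linarith [hT2 g]
    linarith
  intro K _ _ hm io ξ T hT X hX hCl Y hY hrel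
  set g := gK K with hg
  have hgm : g ∈ range m := Finset.mem_range.2 (gK_lt K hm)
  have hTT : T2 g ≤ T := by
    have h1 := Finset.single_le_sum (f := T2) (fun g _ => by linarith [hT2 g]) hgm
    linarith
  have hBB : B g ≤ ∑ g ∈ range m, B g := Finset.single_le_sum (f := B) (fun g _ => hB g) hgm
  have hCC : C g ≤ ∑ g ∈ range m, C g := Finset.single_le_sum (f := C) (fun g _ => (hC g).le) hgm
  have hT1 : 1 ≤ T := by linarith [hT2 g]
  have h1 := H g T hTT (RK K io) (RK_norm K io) ξ X (by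
    intro j x hx
    obtain ⟨hx1, t, rfl, ht⟩ := hX j x hx
    exact ⟨hx1, Pt_of_HtLe K io ht⟩) hCl Y hY (by
    intro y hy
    refine RelR_mono (Real.rpow_le_rpow_of_exponent_le hT1 (neg_le_neg hBB)) ?_
    exact RelR_of_RelK K io ξ _ _ _ (hrel y hy))
  refine h1.trans ?_
  have hM : 0 ≤ MgR X := Finset.sum_nonneg fun j _ => Finset.prod_nonneg fun i _ => by
    split
    · exact zero_le_one
    · exact Nat.cast_nonneg _
  exact mul_le_mul_of_nonneg_right hCC hM

/-- **tuples of algebraic numbers of bounded degree** -/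
theorem fields_mainW (ρ : ℝ) (hρ : 0 < ρ) {κ η : Type} [Fintype κ] [DecidableEq κ] [Fintype η] [DecidableEq η] (m n d : ℕ)
    (v : Fin n → ℂ → κ → ℂ) (L : Fin n → Set ℂ)
    (hv : ∀ g j, OneW g (fun T x y => ‖x - y‖ ≤ T ^ (-(ρ / 2))) (fun R T => {t | t ∈ L j ∧ Pt R T t}) (v j)) (A : ℝ) :
    ∃ B C T₀ : ℝ, ∀ (ξ : η → ℂ) (T : ℝ), T₀ ≤ T → ∀ X : Fin n → Finset ℂ,
      (∀ j, ∀ x ∈ X j, x ∈ L j ∧ AlgLe m T x) → (∀ j, ∀ x ∈ X j, ∀ y ∈ X j, ‖x - y‖ ≤ T ^ (-ρ)) →
      ∀ E : Set (Fin n → ℂ),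
      (∀ x ∈ E, (∀ j, x j ∈ X j) ∧
        ∃ P : MvPolynomial (Fin n × κ) ℂ, (∀ y, P.degreeOf y ≤ d) ∧
        (∀ s, ∃ c : η → ℂ, (∀ i, SInt (Set.range x) (T ^ A) (c i)) ∧ P.coeff s = ∑ i, ξ i * c i) ∧
        ∃ s₀, P.coeff s₀ ≠ 0 ∧
          ‖MvPolynomial.aeval (fun y : Fin n × κ => v y.1 (x y.1) y.2) P‖ ≤ T ^ (-B) * ‖P.coeff s₀‖) →
      E.Finite ∧ (E.ncard : ℝ) ≤ C * MgF X := by
  classical
  obtain ⟨B, C, T₀, hB, hC, hT₀, H⟩ := nfXW _ (m ^ n) n v L hv η d (max A 0)
  refine ⟨2 * B, C, max T₀ 2, fun ξ T hT X hX hCl E hE => ?_⟩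
  have hT2 : 2 ≤ T := (le_max_right _ _).trans hT
  have hT0 : T₀ ≤ T := (le_max_left _ _).trans hT
  have hTpos : 0 < T := by linarith
  have hT1 : 1 ≤ T := by linarith
  have h2T : T₀ ≤ 2 * T := by linarith
  have hHle : T ^ A ≤ (2 * T) ^ (max A 0) :=
    (Real.rpow_le_rpow_of_exponent_le hT1 (le_max_left _ _)).trans
      (Real.rpow_le_rpow hTpos.le (by linarith) (le_max_right _ _))
  have hδle : T ^ (-(2 * B)) ≤ (2 * T) ^ (-B) := by
    have h1 : (2 * T) ^ B ≤ T ^ (2 * B) := by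
      rw [Real.rpow_mul hTpos.le]
      refine Real.rpow_le_rpow (by positivity) ?_ hB
      rw [Real.rpow_two]
      nlinarith
    rw [Real.rpow_neg hTpos.le, Real.rpow_neg (by positivity)]
    exact inv_anti₀ (Real.rpow_pos_of_pos (by positivity) _) h1
  have hwin : T ^ (-ρ) ≤ (2 * T) ^ (-(ρ / 2)) := by
    have h1 : (2 * T) ^ (ρ / 2) ≤ T ^ ρ := by
      have h2 : T ^ ρ = (T ^ (2 : ℝ)) ^ (ρ / 2) := by
        rw [← Real.rpow_mul hTpos.le]
        congr 1
        ring
      rw [h2]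
      refine Real.rpow_le_rpow (by positivity) ?_ (by positivity)
      rw [Real.rpow_two]
      nlinarith
    rw [Real.rpow_neg hTpos.le, Real.rpow_neg (by positivity)]
    exact inv_anti₀ (Real.rpow_pos_of_pos (by positivity) _) h1
  set I : Fin n → Finset (IntermediateField ℚ ℂ) := fun j => (X j).image fun x => IntermediateField.adjoin ℚ {x}
    with hI
  let XG : (Fin n → IntermediateField ℚ ℂ) → Fin n → Finset ℂ := fun G j =>
    (X j).filter fun x => IntermediateField.adjoin ℚ {x} = G j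
  let Y : (Fin n → IntermediateField ℚ ℂ) → Finset (Fin n → ℂ) := fun G =>
    (Fintype.piFinset (XG G)).filter fun x => x ∈ E
  have hEsub : E ⊆ (((Fintype.piFinset I).biUnion Y : Finset (Fin n → ℂ)) : Set (Fin n → ℂ)) := by
    intro x hx
    rw [Finset.mem_coe, Finset.mem_biUnion]
    refine ⟨fun j => IntermediateField.adjoin ℚ {x j}, Fintype.mem_piFinset.2 fun j =>
      Finset.mem_image_of_mem _ ((hE x hx).1 j), Finset.mem_filter.2 ⟨Fintype.mem_piFinset.2 fun j =>
      Finset.mem_filter.2 ⟨(hE x hx).1 j, rfl⟩, hx⟩⟩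
  have hEf : E.Finite := (Finset.finite_toSet _).subset hEsub
  refine ⟨hEf, ?_⟩
  have h1 : (E.ncard : ℝ) ≤ ∑ G ∈ Fintype.piFinset I, ((Y G).card : ℝ) := by
    have h2 := Set.ncard_le_ncard hEsub (Finset.finite_toSet _)
    rw [Set.ncard_coe_finset] at h2
    have h3 := h2.trans Finset.card_biUnion_le
    exact_mod_cast h3
  have h2 : ∑ G ∈ Fintype.piFinset I, ((Y G).card : ℝ) ≤
      ∑ G ∈ Fintype.piFinset I, C * MgR (XG G) := by
    refine Finset.sum_le_sum fun G hG => ?_
    have hG' : ∀ j, ∃ x ∈ X j, IntermediateField.adjoin ℚ {x} = G j := fun j =>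
      Finset.mem_image.1 (Fintype.mem_piFinset.1 hG j)
    have hfd : ∀ j, FiniteDimensional ℚ (G j) := by
      intro j
      obtain ⟨x, hx, hxG⟩ := hG' j
      rw [← hxG]
      exact IntermediateField.adjoin.finiteDimensional (hX j x hx).2.integral
    have hfr : ∀ j, finrank ℚ (G j) ≤ m := by
      intro j
      obtain ⟨x, hx, hxG⟩ := hG' j
      rw [← hxG]
      exact (hX j x hx).2.finrank
    obtain ⟨hf1, hf2⟩ := sup_aux m n G hfd hfr
    set K : IntermediateField ℚ ℂ := ⨆ j, G j with hK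
    have : NumberField K := { to_charZero := inferInstance, to_finiteDimensional := hf1 }
    have hmem : ∀ j x, x ∈ XG G j → x ∈ K := by
      intro j x hx
      have h3 := (Finset.mem_filter.1 hx).2
      have h4 : G j ≤ K := le_iSup G j
      apply h4
      rw [← h3]
      exact IntermediateField.mem_adjoin_simple_self ℚ x
    refine H K hf2 K.val.toRingHom ξ (2 * T) h2T (XG G) (fun j x hx => ?_) (fun j x hx y hy => ?_) (Y G) (Finset.filter_subset _ _)
      fun x hx => ?_
    · have h3 := (Finset.mem_filter.1 hx).1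
      exact ⟨(hX j x h3).1, ⟨x, hmem j x hx⟩, rfl, htLe_alg K hTpos.le (hX j x h3).2 _⟩
    · exact (hCl j x (Finset.mem_filter.1 hx).1 y (Finset.mem_filter.1 hy).1).trans hwin
    · obtain ⟨hx1, hx2⟩ := Finset.mem_filter.1 hx
      have hxK : ∀ j, x j ∈ K := fun j => hmem j _ (Fintype.mem_piFinset.1 hx1 j)
      obtain ⟨-, P, hPd, hPc, s₀, hs₀, hs⟩ := hE x hx2
      refine relK_of_poly' K K.val.toRingHom ξ v x _ _ P hPd ?_ s₀ hs₀ ?_
      · intro s
        obtain ⟨c, hc1, hc2⟩ := hPc s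
        choose y hy1 hy2 using fun i => sInt_K K x hxK (T ^ A) (c i) (hc1 i)
        refine ⟨y, fun i φ => (hy2 i φ).trans hHle, ?_⟩
        rw [hc2]
        refine Finset.sum_congr rfl fun i _ => ?_
        rw [← hy1 i]
        rfl
      · refine hs.trans ?_
        exact mul_le_mul_of_nonneg_right hδle (norm_nonneg _)
  rw [← Finset.mul_sum, sum_MgF X] at h2
  exact h1.trans h2

end Pool.Agent.H97.ZW
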