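import Pool.Agent.H97.ZW.CountW
import Pool.Graph.R_pool_sql_team_seeded_c8625f6e.K4H52.AP.Main
import Pool.Graph.R_pool_sql_team_seeded_c8625f6e.K4H52.AP.Countable2

/-!
# Values of zeta: the points with a given value near a compact set
-/

set_option autoImplicit false

open Filter Topology Set MvPolynomial

namespace Pool.Agent.H97.ZW

open Pool.Agent.H97.AL
open Pool.Agent.Y124 (LocInd)
open Pool.Agent.Q192.QD (AlgLe SInt nfd MgF)

/-- the solutions in a compact set are the values of finitely many local inverse functions -/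
theorem coverC {f : ℂ → ℂ} {D : Set ℂ} (hD : IsCompact D) (hf : ∀ s ∈ D, AnalyticAt ℂ f s) (a₀ : ℂ)
    (h : ∀ s ∈ D, f s = a₀ → deriv f s ≠ 0) :
    ∃ (Z : Finset ℂ) (g : ℂ → ℂ → ℂ), (∀ s ∈ Z, s ∈ D ∧ AnalyticAt ℂ (g s) a₀ ∧ g s a₀ = s ∧
      (∀ᶠ a in 𝓝 a₀, f (g s a) = a) ∧ ∀ᶠ t in 𝓝 s, g s (f t) = t) ∧
      ∀ᶠ a in 𝓝 a₀, ∀ t ∈ D, f t = a → ∃ s ∈ Z, g s a = t := by
  classical
  have hcont : ContinuousOn f D := fun s hs => (hf s hs).continuousAt.continuousWithinAt
  set S : Set ℂ := D ∩ f ⁻¹' {a₀} with hS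
  have hSc : IsCompact S :=
    hD.of_isClosed_subset (hcont.preimage_isClosed_of_isClosed hD.isClosed isClosed_singleton) inter_subset_left
  have hb : ∀ s : ℂ, ∃ g : ℂ → ℂ, s ∈ S → AnalyticAt ℂ g a₀ ∧ g a₀ = s ∧ (∀ᶠ a in 𝓝 a₀, f (g a) = a) ∧
      ∀ᶠ t in 𝓝 s, g (f t) = t := by
    intro s
    by_cases hs : s ∈ S
    · have ha := hf s hs.1
      have hd := h s hs.1 hs.2
      have h5 : f s = a₀ := hs.2
      have h1 := ha.analyticAt_localInverse hd
      have h2 := HasStrictFDerivAt.localInverse_apply_image (ha.hasStrictDerivAt.hasStrictFDerivAt_equiv hd)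
      have h3 := HasStrictFDerivAt.eventually_right_inverse (ha.hasStrictDerivAt.hasStrictFDerivAt_equiv hd)
      have h4 := HasStrictFDerivAt.eventually_left_inverse (ha.hasStrictDerivAt.hasStrictFDerivAt_equiv hd)
      rw [h5] at h1 h2 h3
      exact ⟨_, fun _ => ⟨h1, h2, h3, h4⟩⟩
    · exact ⟨0, fun hh => absurd hh hs⟩
  choose g hg using hb
  obtain ⟨Z, hZS, hZ⟩ := hSc.elim_nhds_subcover (fun s => interior {t | g s (f t) = t}) (fun s hs =>
    interior_mem_nhds.2 (hg s hs).2.2.2)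
  refine ⟨Z, g, fun s hs => ⟨(hZS s hs).1, hg s (hZS s hs)⟩, ?_⟩
  set Q : Set ℂ := D \ ⋃ s ∈ Z, interior {t | g s (f t) = t} with hQ
  have hQc : IsCompact Q := hD.diff (isOpen_biUnion fun s _ => isOpen_interior)
  have hcl : IsClosed (f '' Q) := (hQc.image_of_continuousOn (hcont.mono Set.sdiff_subset)).isClosed
  have hna : a₀ ∉ f '' Q := by
    rintro ⟨t, ht, hta⟩
    exact ht.2 (hZ ⟨ht.1, hta⟩)
  filter_upwards [hcl.isOpen_compl.mem_nhds hna] with a ha t ht hta
  have h1 : t ∉ Q := fun hh => ha ⟨t, hh, hta⟩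
  have h2 : t ∈ ⋃ s ∈ Z, interior {t | g s (f t) = t} := by
    by_contra hcon
    exact h1 ⟨ht, hcon⟩
  obtain ⟨s, hs, hts⟩ := Set.mem_iUnion₂.1 h2
  refine ⟨s, hs, ?_⟩
  have h3 : t ∈ {t | g s (f t) = t} := interior_subset hts
  have h4 : g s (f t) = t := h3
  rwa [hta] at h4

/-- branches of the inverse function of zeta are independent -/
theorem locInd_pts {κ : Type} [Finite κ] (y : κ → ℂ → ℂ) (t : ℂ) (h1 : ∀ k, AnalyticAt ℂ (y k) t)
    (h2 : ∀ k, ∀ᶠ a in 𝓝 t, riemannZeta (y k a) = a) (h3 : Function.Injective fun k => y k t)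
    (h4 : ∀ k, y k t ≠ 1) : LocInd y t := by
  classical
  intro P hP
  by_contra hP0
  let K : Subfield ℂ := Subfield.closure (P.coeffs : Set ℂ)
  have hKc : Countable K := by
    rw [← Cardinal.mk_le_aleph0_iff]
    refine (Subfield.cardinalMk_closure_le_max _).trans (max_le ?_ le_rfl)
    rw [Cardinal.mk_le_aleph0_iff]
    exact P.coeffs.countable_toSet.to_subtype
  obtain ⟨PK, hPK⟩ : ∃ PK : MvPolynomial (Option κ) K, MvPolynomial.map (algebraMap K ℂ) PK = P := by
    have h1 : P ∈ Set.range (MvPolynomial.map (algebraMap K ℂ)) := by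
      rw [MvPolynomial.mem_range_map_iff_coeffs_subset]
      intro c hc
      exact ⟨⟨c, Subfield.subset_closure hc⟩, rfl⟩
    exact h1
  have hPK0 : PK ≠ 0 := by
    rintro rfl
    exact hP0 (by rw [← hPK, map_zero])
  have hE := Pool.Agent.K4H52.AP.countable_exceptions2 Pool.Agent.K4H52.AP.thmA2_main K
    (Set.countable_coe_iff.1 hKc)
  have c2 : ∀ᶠ a in 𝓝 t, ∀ k, riemannZeta (y k a) = a := by
    rw [eventually_all]
    exact h2
  have c3 : ∀ᶠ a in 𝓝 t, ∀ k l, k ≠ l → y k a ≠ y l a := by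
    rw [eventually_all]
    intro k
    rw [eventually_all]
    intro l
    by_cases hkl : k = l
    · exact Eventually.of_forall fun a h => absurd hkl h
    · have h5 : ∀ᶠ a in 𝓝 t, y k a - y l a ≠ 0 :=
        ((h1 k).continuousAt.sub (h1 l).continuousAt).eventually_ne (by
          change y k t - y l t ≠ 0
          exact sub_ne_zero.2 fun hh => hkl (h3 hh))
      filter_upwards [h5] with a ha _
      exact sub_ne_zero.1 ha
  have c4 : ∀ᶠ a in 𝓝 t, ∀ k, y k a ≠ 1 := by
    rw [eventually_all]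
    exact fun k => (h1 k).continuousAt.eventually_ne (h4 k)
  obtain ⟨a, ha1, ha2, ha3, ha4, ha5⟩ := (hE.dense_compl ℂ).inter_nhds_nonempty (hP.and (c2.and (c3.and c4)))
  have h6 : AlgebraicIndependent K (fun o : Option {s : ℂ // s ≠ 1 ∧ riemannZeta s = a} =>
      (o.elim a (fun s => (s : ℂ)) : ℂ)) := by
    by_contra hcon
    exact ha1 hcon
  have h7 : Function.Injective (Option.map fun k : κ =>
      (⟨y k a, ha5 k, ha3 k⟩ : {s : ℂ // s ≠ 1 ∧ riemannZeta s = a})) := by
    refine Option.map_injective ?_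
    intro k l hkl
    by_contra hne
    exact ha4 k l hne (congrArg Subtype.val hkl)
  have h8 := h6.comp _ h7
  apply hPK0
  refine (algebraicIndependent_iff.1 h8) PK ?_
  rw [MvPolynomial.aeval_def, ← MvPolynomial.eval_map, hPK]
  refine Eq.trans ?_ ha2
  congr 2
  funext o
  rcases o with _ | s <;> rfl

/-- linear substitution -/
theorem locInd_im {M : Type} (u v : M → ℂ → ℂ) (t : ℂ) (h : LocInd (Sum.elim u v) t) :
    LocInd (fun s a => (u s a - v s a) / (2 * Complex.I)) t := by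
  intro P hP
  let φ : MvPolynomial (Option M) ℂ →ₐ[ℂ] MvPolynomial (Option (M ⊕ M)) ℂ :=
    aeval fun o => o.elim (X none) fun s => C (1 / (2 * Complex.I)) * (X (some (Sum.inl s)) - X (some (Sum.inr s)))
  let ψ : MvPolynomial (Option (M ⊕ M)) ℂ →ₐ[ℂ] MvPolynomial (Option M) ℂ :=
    aeval fun o => o.elim (X none) (Sum.elim (fun s => C (2 * Complex.I) * X (some s)) fun _ => 0)
  have h1 : φ P = 0 := by
    apply h
    filter_upwards [hP] with a ha
    rw [← ha]
    have h2 : (MvPolynomial.eval fun o : Option (M ⊕ M) => o.elim a fun k => Sum.elim u v k a).comp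
        (φ : MvPolynomial (Option M) ℂ →+* MvPolynomial (Option (M ⊕ M)) ℂ) =
        MvPolynomial.eval fun o : Option M => o.elim a fun s => (u s a - v s a) / (2 * Complex.I) := by
      apply MvPolynomial.ringHom_ext
      · intro r
        simp [φ]
      · rintro (_ | s)
        · simp [φ]
        · simp only [φ, RingHom.comp_apply, RingHom.coe_coe, aeval_X, Option.elim_some, map_mul, map_sub, eval_C,
            eval_X, Sum.elim_inl, Sum.elim_inr]
          ring
    exact RingHom.congr_fun h2 P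
  have h3 : ψ.comp φ = AlgHom.id ℂ _ := by
    apply MvPolynomial.algHom_ext
    rintro (_ | s)
    · simp [φ, ψ]
    · simp only [φ, ψ, AlgHom.comp_apply, aeval_X, Option.elim_some, map_mul, map_sub, Sum.elim_inl, Sum.elim_inr,
        sub_zero, AlgHom.id_apply]
      rw [MvPolynomial.algHom_C, MvPolynomial.algebraMap_eq, ← mul_assoc, ← C_mul, ← C_mul]
      have h4 : (1 / (2 * Complex.I)) * (2 * Complex.I) = 1 := by
        have := Complex.I_ne_zero
        field_simp
      rw [h4, C_1, one_mul]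
  have h5 := AlgHom.congr_fun h3 P
  rw [AlgHom.comp_apply, h1, map_zero] at h5
  exact h5.symm

end Pool.Agent.H97.ZW
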