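import Pool.Agent.H97.ZW.Zeta

/-!
# Values of zeta: local pieces, and the counting theorem
-/

set_option autoImplicit false

open Filter Topology Set MvPolynomial

namespace Pool.Agent.H97.ZW

open Pool.Agent.H97.AL
open Pool.Agent.Y124 (LocInd)
open Pool.Agent.Q192.QD (AlgLe SInt nfd MgF)

/-- sets of points with the value `a` -/
def SolZ (D : Set ℂ) (a : ℂ) (M : Set ℂ) : Prop := ∀ v ∈ M, v ∈ D ∧ riemannZeta v = a

/-- the positive ordinates of the points of `D` with the value `a` -/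
def OrdZ (D : Set ℂ) (a : ℂ) : Set ℝ :=
  {γ | 0 < γ ∧ ∃ β : ℝ, (β : ℂ) + (γ : ℂ) * Complex.I ∈ D ∧ riemannZeta ((β : ℂ) + (γ : ℂ) * Complex.I) = a}

/-- sets of ordinates at a real value -/
def SolOZ (D : Set ℂ) (a : ℂ) (M : Set ℂ) : Prop := a.im = 0 ∧ ∀ v ∈ M, ∃ γ ∈ OrdZ D a, (γ : ℂ) = v

theorem zeta_an {D : Set ℂ} (h1 : (1 : ℂ) ∉ D) : ∀ s ∈ D, AnalyticAt ℂ riemannZeta s := by
  intro s hs
  have hs1 : s ≠ 1 := fun h => h1 (h ▸ hs)
  rw [Complex.analyticAt_iff_eventually_differentiableAt]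
  filter_upwards [isOpen_ne.mem_nhds hs1] with z hz
  exact differentiableAt_riemannZeta hz

theorem loc_ptsZ {D : Set ℂ} (hD : IsCompact D) (h1 : (1 : ℂ) ∉ D) (a₀ : ℂ)
    (ha₀ : ∀ s ∈ D, riemannZeta s = a₀ → deriv riemannZeta s ≠ 0) : ∃ t ∈ 𝓝 a₀, Cov (SolZ D) t := by
  classical
  obtain ⟨Z, g, hg, hcov⟩ := coverC hD (zeta_an h1) a₀ ha₀
  have c1 : ∀ᶠ a in 𝓝 a₀, ∀ s ∈ Z, AnalyticAt ℂ (g s) a := by
    rw [Finset.eventually_all]
    exact fun s hsZ => (hg s hsZ).2.1.eventually_analyticAt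
  have c2 : ∀ᶠ a in 𝓝 a₀, ∀ s ∈ Z, riemannZeta (g s a) = a := by
    rw [Finset.eventually_all]
    exact fun s hsZ => (hg s hsZ).2.2.2.1
  have c3 : ∀ᶠ a in 𝓝 a₀, ∀ s ∈ Z, ∀ s' ∈ Z, (s ≠ s' → g s a ≠ g s' a) := by
    rw [Finset.eventually_all]
    intro s hsZ
    rw [Finset.eventually_all]
    intro s' hsZ'
    by_cases hss : s = s'
    · exact Eventually.of_forall fun a h => absurd hss h
    · have h1 : ∀ᶠ a in 𝓝 a₀, g s a - g s' a ≠ 0 :=
        ((hg s hsZ).2.1.continuousAt.sub (hg s' hsZ').2.1.continuousAt).eventually_ne (by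
          change g s a₀ - g s' a₀ ≠ 0
          rw [(hg s hsZ).2.2.1, (hg s' hsZ').2.2.1]
          exact sub_ne_zero.2 hss)
      filter_upwards [h1] with a ha _
      exact sub_ne_zero.1 ha
  have c4 : ∀ᶠ a in 𝓝 a₀, ∀ s ∈ Z, g s a ≠ 1 := by
    rw [Finset.eventually_all]
    intro s hsZ
    refine (hg s hsZ).2.1.continuousAt.eventually_ne ?_
    rw [(hg s hsZ).2.2.1]
    exact fun h => h1 (h ▸ (hg s hsZ).1)
  obtain ⟨r, hr, hball⟩ := Metric.eventually_nhds_iff_ball.1 (c1.and (c2.and (c3.and (c4.and hcov))))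
  let pc : Piece :=
    { κ := Z
      fin := inferInstance
      U := Metric.ball a₀ r
      C := Metric.closedBall a₀ (r / 2)
      y := fun s => g s
      hU := Metric.isOpen_ball
      hc := (convex_ball a₀ r).isPreconnected
      hC := isCompact_closedBall _ _
      hCU := Metric.closedBall_subset_ball (by linarith)
      hy := fun s t ht => (hball t ht).1 s s.2
      hl := fun t ht => locInd_pts _ t (fun s => (hball t ht).1 s s.2) (fun s => by
          filter_upwards [Metric.isOpen_ball.mem_nhds ht] with a ha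
          exact (hball a ha).2.1 s s.2) (fun s s' hss => by
          by_contra hne
          exact (hball t ht).2.2.1 s s.2 s' s'.2 (fun h => hne (Subtype.ext h)) hss)
        (fun s => (hball t ht).2.2.2.1 s s.2) }
  refine ⟨Metric.closedBall a₀ (r / 2), Metric.closedBall_mem_nhds _ (by positivity), {pc}, Set.finite_singleton _,
    fun a ha M hM => ⟨pc, rfl, ha, fun v hv => ?_⟩⟩
  have hab : a ∈ Metric.ball a₀ r := Metric.closedBall_subset_ball (by linarith) ha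
  obtain ⟨s, hsZ, hsv⟩ := (hball a hab).2.2.2.2 v (hM v hv).1 (hM v hv).2
  exact ⟨⟨s, hsZ⟩, hsv⟩

theorem loc_ordZ {D : Set ℂ} (hD : IsCompact D) (h1 : (1 : ℂ) ∉ D) (x : ℝ)
    (hx : ∀ s ∈ D, riemannZeta s = x → deriv riemannZeta s ≠ 0) : ∃ t ∈ 𝓝 (x : ℂ), Cov (SolOZ D) t := by
  classical
  obtain ⟨Z, g, hg, hcov⟩ := coverC hD (zeta_an h1) (x : ℂ) hx
  set Y : Finset ℂ := Z.filter fun s => 0 < s.im with hY
  have hYZ : ∀ s ∈ Y, s ∈ Z ∧ 0 < s.im := fun s hs => Finset.mem_filter.1 hs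
  have ht : ∀ s ∈ Z, Tendsto (g s) (𝓝 (x : ℂ)) (𝓝 s) := by
    intro s hs
    have := (hg s hs).2.1.continuousAt.tendsto
    rwa [(hg s hs).2.2.1] at this
  have hti : ∀ s ∈ Z, Tendsto (fun a => (g s a).im) (𝓝 (x : ℂ)) (𝓝 s.im) := fun s hs =>
    (Complex.continuous_im.tendsto s).comp (ht s hs)
  have c0 : ∀ᶠ a in 𝓝 (x : ℂ), ∀ s ∈ Y, AnalyticAt ℂ (g s) a := by
    rw [Finset.eventually_all]
    exact fun s hs => (hg s (hYZ s hs).1).2.1.eventually_analyticAt
  have c2 : ∀ᶠ a in 𝓝 (x : ℂ), ∀ s ∈ Z, riemannZeta (g s a) = a := by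
    rw [Finset.eventually_all]
    exact fun s hs => (hg s hs).2.2.2.1
  have c3 : ∀ᶠ a in 𝓝 (x : ℂ), ∀ s ∈ Z, (0 < s.im → 0 < (g s a).im) := by
    rw [Finset.eventually_all]
    intro s hs
    by_cases h : 0 < s.im
    · exact ((hti s hs).eventually (lt_mem_nhds h)).mono fun a ha _ => ha
    · exact Eventually.of_forall fun a h' => absurd h' h
  have c4 : ∀ᶠ a in 𝓝 (x : ℂ), ∀ s ∈ Z, (s.im < 0 → (g s a).im < 0) := by
    rw [Finset.eventually_all]
    intro s hs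
    by_cases h : s.im < 0
    · exact ((hti s hs).eventually (gt_mem_nhds h)).mono fun a ha _ => ha
    · exact Eventually.of_forall fun a h' => absurd h' h
  have c5 : ∀ᶠ a in 𝓝 (x : ℂ), ∀ s ∈ Z, (s.im = 0 → a.im = 0 → (g s a).im = 0) := by
    rw [Finset.eventually_all]
    intro s hs
    by_cases h : s.im = 0
    · have h1 : Tendsto (fun a => (starRingEnd ℂ) (g s a)) (𝓝 (x : ℂ)) (𝓝 s) := by
        have h2 := (Complex.continuous_conj.tendsto s).comp (ht s hs)
        rwa [Complex.conj_eq_iff_im.2 h] at h2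
      filter_upwards [h1.eventually (hg s hs).2.2.2.2, (hg s hs).2.2.2.1] with a ha ha' _ hai
      rw [riemannZeta_conj, ha', Complex.conj_eq_iff_im.2 hai] at ha
      exact Complex.conj_eq_iff_im.1 ha.symm
    · exact Eventually.of_forall fun a h' => absurd h' h
  have c6 : ∀ᶠ a in 𝓝 (x : ℂ), ∀ s ∈ Y, ∀ s' ∈ Y, (s ≠ s' → g s a ≠ g s' a) := by
    rw [Finset.eventually_all]
    intro s hs
    rw [Finset.eventually_all]
    intro s' hs'
    have hsZ := (hYZ s hs).1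
    have hsZ' := (hYZ s' hs').1
    by_cases hss : s = s'
    · exact Eventually.of_forall fun a h => absurd hss h
    · have h1 : ∀ᶠ a in 𝓝 (x : ℂ), g s a - g s' a ≠ 0 :=
        ((hg s hsZ).2.1.continuousAt.sub (hg s' hsZ').2.1.continuousAt).eventually_ne (by
          change g s x - g s' x ≠ 0
          rw [(hg s hsZ).2.2.1, (hg s' hsZ').2.2.1]
          exact sub_ne_zero.2 hss)
      filter_upwards [h1] with a ha _
      exact sub_ne_zero.1 ha
  obtain ⟨r, hr, hball⟩ := Metric.eventually_nhds_iff_ball.1 (c0.and (c2.and (c3.and (c4.and (c5.and (c6.and hcov))))))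
  have hconj : ∀ t : ℂ, t ∈ Metric.ball (x : ℂ) r → (starRingEnd ℂ) t ∈ Metric.ball (x : ℂ) r := by
    intro t ht
    rw [Metric.mem_ball] at ht ⊢
    have := Complex.dist_conj_conj t (x : ℂ)
    rw [Complex.conj_ofReal] at this
    rwa [this]
  have hcan : ∀ s ∈ Y, ∀ t ∈ Metric.ball (x : ℂ) r,
      AnalyticAt ℂ (fun z => (starRingEnd ℂ) (g s ((starRingEnd ℂ) z))) t := by
    intro s hs t ht
    rw [Complex.analyticAt_iff_eventually_differentiableAt]
    filter_upwards [Metric.isOpen_ball.mem_nhds ht] with z hz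
    have h3 := ((hball _ (hconj z hz)).1 s hs).differentiableAt.conj_conj
    rw [Complex.conj_conj] at h3
    exact h3
  have hloc : ∀ t ∈ Metric.ball (x : ℂ) r, LocInd (fun s : Y => im (g s)) t := by
    intro t ht
    refine locInd_im (fun s : Y => g s) (fun s z => (starRingEnd ℂ) (g s ((starRingEnd ℂ) z))) t ?_
    refine locInd_pts _ t ?_ ?_ ?_ ?_
    · rintro (s | s)
      · exact (hball t ht).1 s s.2
      · exact hcan s s.2 t ht
    · rintro (s | s)
      · filter_upwards [Metric.isOpen_ball.mem_nhds ht] with a ha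
        exact (hball a ha).2.1 s (hYZ s s.2).1
      · filter_upwards [Metric.isOpen_ball.mem_nhds ht] with a ha
        change riemannZeta ((starRingEnd ℂ) (g s ((starRingEnd ℂ) a))) = a
        rw [riemannZeta_conj, (hball _ (hconj a ha)).2.1 s (hYZ s s.2).1, Complex.conj_conj]
    · have hup : ∀ s : Y, 0 < (g s t).im := fun s => (hball t ht).2.2.1 s (hYZ s s.2).1 (hYZ s s.2).2
      have hdn : ∀ s : Y, ((starRingEnd ℂ) (g s ((starRingEnd ℂ) t))).im < 0 := fun s => by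
        rw [Complex.conj_im]
        have := (hball _ (hconj t ht)).2.2.1 s (hYZ s s.2).1 (hYZ s s.2).2
        linarith
      rintro (s | s) (s' | s') hss
      · by_contra hne
        refine (hball t ht).2.2.2.2.2.1 s s.2 s' s'.2 (fun h => hne (congrArg Sum.inl (Subtype.ext h))) hss
      · exfalso
        have h2 : g s t = (starRingEnd ℂ) (g s' ((starRingEnd ℂ) t)) := hss
        have h3 := hup s
        rw [h2] at h3
        exact absurd h3 (hdn s').not_gt
      · exfalso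
        have h2 : (starRingEnd ℂ) (g s ((starRingEnd ℂ) t)) = g s' t := hss
        have h3 := hup s'
        rw [← h2] at h3
        exact absurd h3 (hdn s).not_gt
      · by_contra hne
        have h2 : (starRingEnd ℂ) (g s ((starRingEnd ℂ) t)) = (starRingEnd ℂ) (g s' ((starRingEnd ℂ) t)) := hss
        refine (hball _ (hconj t ht)).2.2.2.2.2.1 s s.2 s' s'.2 (fun h => hne (congrArg Sum.inr (Subtype.ext h))) ?_
        exact (starRingEnd ℂ).injective h2
    · rintro (s | s) h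
      · have h2 := (hball t ht).2.2.1 s (hYZ s s.2).1 (hYZ s s.2).2
        change g s t = 1 at h
        rw [h] at h2
        simp at h2
      · have h2 := (hball _ (hconj t ht)).2.2.1 s (hYZ s s.2).1 (hYZ s s.2).2
        change (starRingEnd ℂ) (g s ((starRingEnd ℂ) t)) = 1 at h
        have h3 := congrArg Complex.im h
        rw [Complex.conj_im, Complex.one_im] at h3
        linarith
  let pc : Piece :=
    { κ := Y
      fin := inferInstance
      U := Metric.ball (x : ℂ) r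
      C := Metric.closedBall (x : ℂ) (r / 2)
      y := fun s => im (g s)
      hU := Metric.isOpen_ball
      hc := (convex_ball (x : ℂ) r).isPreconnected
      hC := isCompact_closedBall _ _
      hCU := Metric.closedBall_subset_ball (by linarith)
      hy := fun s t ht => (((hball t ht).1 s s.2).sub (hcan s s.2 t ht)).div_const
      hl := hloc }
  refine ⟨Metric.closedBall (x : ℂ) (r / 2), Metric.closedBall_mem_nhds _ (by positivity), {pc},
    Set.finite_singleton _, fun a ha M hM => ⟨pc, rfl, ha, fun v hv => ?_⟩⟩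
  have hab : a ∈ Metric.ball (x : ℂ) r := Metric.closedBall_subset_ball (by linarith) ha
  obtain ⟨b1, b2, b3, b4, b5, b6, b7⟩ := hball a hab
  have hai : a.im = 0 := hM.1
  have hare : ((a.re : ℝ) : ℂ) = a := Complex.ext rfl (by simp [hai])
  obtain ⟨γ, ⟨hγ, β, hβ, hfβ⟩, rfl⟩ := hM.2 v hv
  obtain ⟨s, hs, hsa⟩ := b7 _ hβ hfβ
  have him : (g s a).im = γ := by rw [hsa]; simp
  refine ⟨⟨s, Finset.mem_filter.2 ⟨hs, ?_⟩⟩, ?_⟩
  · rcases lt_trichotomy s.im 0 with h | h | h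
    · have := b4 s hs h
      linarith
    · have := b5 s hs h hai
      linarith
    · exact h
  · change im (g s) a = γ
    rw [← hare, im_real, hare, him]

/-- there is a relation between points -/
def ExZ (D : Set ℂ) {N g : ℕ} (ω : Fin g → ℂ) (d : ℕ) (A B T : ℝ) (a : Fin N → ℂ) : Prop :=
  ∃ (n : ℕ) (lev : Fin n → Fin N) (s : Fin n → ℂ), (∀ k, s k ∈ D ∧ riemannZeta (s k) = a (lev k)) ∧
    (∀ k l, k ≠ l → lev k = lev l → s k ≠ s l) ∧ RelN ω d A B T a s

/-- there is a relation between ordinates -/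
def ExOZ (D : Set ℂ) {N g : ℕ} (ω : Fin g → ℂ) (d : ℕ) (A B T : ℝ) (a : Fin N → ℂ) : Prop :=
  (∀ j, (a j).im = 0) ∧ ∃ (n : ℕ) (lev : Fin n → Fin N) (γ : Fin n → ℝ), (∀ k, γ k ∈ OrdZ D (a (lev k))) ∧
    (∀ k l, k ≠ l → lev k = lev l → γ k ≠ γ l) ∧ RelN ω d A B T a (fun k => (γ k : ℂ))

theorem ExZ.rel {D : Set ℂ} {N g : ℕ} {ω : Fin g → ℂ} {d : ℕ} {A B T : ℝ} {a : Fin N → ℂ}
    (h : ExZ D ω d A B T a) : RelA (SolZ D) ω d A B T a := by
  obtain ⟨n, lev, s, h1, h2, h3⟩ := h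
  refine ⟨n, lev, s, fun j => ?_, h2, h3⟩
  rintro v ⟨k, rfl, rfl⟩
  exact h1 k

theorem ExOZ.rel {D : Set ℂ} {N g : ℕ} {ω : Fin g → ℂ} {d : ℕ} {A B T : ℝ} {a : Fin N → ℂ}
    (h : ExOZ D ω d A B T a) : RelA (SolOZ D) ω d A B T a := by
  obtain ⟨h0, n, lev, γ, h1, h2, h3⟩ := h
  refine ⟨n, lev, fun k => (γ k : ℂ), fun j => ⟨h0 j, ?_⟩, fun k l hkl hlev hh =>
    h2 k l hkl hlev (Complex.ofReal_injective hh), h3⟩
  rintro v ⟨k, rfl, rfl⟩
  exact ⟨γ k, h1 k, rfl⟩

theorem loc_ordZ' {D : Set ℂ} (hD : IsCompact D) (h1 : (1 : ℂ) ∉ D) (x : ℂ)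
    (hx : ∀ s ∈ D, riemannZeta s = x → deriv riemannZeta s ≠ 0) : ∃ t ∈ 𝓝 x, Cov (SolOZ D) t := by
  by_cases h : x.im = 0
  · have h2 : ((x.re : ℝ) : ℂ) = x := Complex.ext rfl (by simp [h])
    have h3 := loc_ordZ hD h1 x.re (by rwa [h2])
    rwa [h2] at h3
  · refine ⟨{z | z.im ≠ 0}, (isOpen_ne_fun Complex.continuous_im continuous_const).mem_nhds h, ∅,
      Set.finite_empty, fun a ha M hM => absurd hM.1 ha⟩

/-- the counting theorem for zeta -/
theorem countW_zeta {D : Set ℂ} (hD : IsCompact D) (h1 : (1 : ℂ) ∉ D) {K : Set ℂ} (hK : IsCompact K)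
    (hreg : ∀ s ∈ D, riemannZeta s ∈ K → deriv riemannZeta s ≠ 0) (N m d g : ℕ) (A ρ : ℝ) (hρ : 0 < ρ) :
    ∃ B C T₀ : ℝ, ∀ (ω : Fin g → ℂ) (T : ℝ), T₀ ≤ T → ∀ X : Fin N → Finset ℂ,
      (∀ j, ∀ x ∈ X j, x ∈ K ∧ AlgLe m T x) → (∀ j, ∀ x ∈ X j, ∀ y ∈ X j, ‖x - y‖ ≤ T ^ (-ρ)) →
      {a : Fin N → ℂ | (∀ j, a j ∈ X j) ∧ (ExZ D ω d A B T a ∨ ExOZ D ω d A B T a)}.Finite ∧
      ({a : Fin N → ℂ | (∀ j, a j ∈ X j) ∧ (ExZ D ω d A B T a ∨ ExOZ D ω d A B T a)}.ncard : ℝ) ≤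
        C * MgF X := by
  have hreg' : ∀ a ∈ K, ∀ s ∈ D, riemannZeta s = a → deriv riemannZeta s ≠ 0 := fun a ha s hs hsa =>
    hreg s hs (by rw [hsa]; exact ha)
  exact countW_two (P₁ := fun A B T _ _ ω d a => ExZ D ω d A B T a) (P₂ := fun A B T _ _ ω d a => ExOZ D ω d A B T a)
    (Cov.of_local hK fun x hx => loc_ptsZ hD h1 x (hreg' x hx))
    (Cov.of_local hK fun x hx => loc_ordZ' hD h1 x (hreg' x hx)) (fun _ _ _ _ _ _ h => h.rel)
    (fun _ _ _ _ _ _ h => h.rel) N m d g A ρ hρ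

end Pool.Agent.H97.ZW
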